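import Mathlib
import Pool.Agent.Helper34.ZP.G4

/-!
# Ranks of idempotents on algebraic classes modulo numerical equivalence
-/

universe u v w t

open CategoryTheory TensorProduct Filter Topology

namespace Pool.Agent.Helper46.QL

open Pool.Agent.Helper10 Pool.Agent.Helper11.Iso SmProjVar SPre Pool.Agent.Helper34.ZP

/-- subadditivity -/
theorem rdim_sup_le {F : Type*} [Field F] {V : Type*} [AddCommGroup V] [Module F V]
    [Module.Finite F V] (N S S' : Submodule F V) : rdim N (S ⊔ S') ≤ rdim N S + rdim N S' := by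
  rw [rdim_eq, rdim_eq, rdim_eq, Submodule.map_sup]
  exact Submodule.finrank_add_le_finrank_add_finrank _ _

/-- the rank of the complementary idempotent -/
theorem finrank_range_id_sub {F : Type*} [Field F] {V : Type*} [AddCommGroup V] [Module F V]
    [Module.Finite F V] {e : V →ₗ[F] V} (hee : e ∘ₗ e = e) :
    Module.finrank F (LinearMap.range (LinearMap.id - e)) +
      Module.finrank F (LinearMap.range e) = Module.finrank F V := by
  have h1 := LinearMap.finrank_range_add_finrank_ker e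
  have h2 : LinearMap.range (LinearMap.id - e) = LinearMap.ker e := by
    ext x
    constructor
    · rintro ⟨y, rfl⟩
      rw [LinearMap.mem_ker, LinearMap.sub_apply, LinearMap.id_apply, map_sub]
      have := LinearMap.congr_fun hee y
      rw [LinearMap.comp_apply] at this
      rw [this, sub_self]
    · intro hx
      refine ⟨x, ?_⟩
      rw [LinearMap.sub_apply, LinearMap.id_apply, LinearMap.mem_ker.mp hx, sub_zero]
  rw [h2]
  omega

theorem id_sub_comp_self {F : Type*} [Field F] {V : Type*} [AddCommGroup V] [Module F V]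
    {e : V →ₗ[F] V} (hee : e ∘ₗ e = e) :
    (LinearMap.id - e) ∘ₗ (LinearMap.id - e) = LinearMap.id - e := by
  rw [LinearMap.sub_comp, LinearMap.comp_sub, LinearMap.comp_sub, hee, LinearMap.id_comp,
    LinearMap.id_comp, LinearMap.comp_id, sub_self, sub_zero]

variable {k : Type u} [Field k] {K : Type t} [Field K] {Ω : Type v} [Field Ω] [Algebra K Ω]
  {P : SPre.{u, v, w, t} k K Ω}

lemma tmap_sub_left {X Y X' Y' : SmProjVar k} (f g : P.H X →ₗ[Ω] P.H X')
    (h : P.H Y →ₗ[Ω] P.H Y') : tmap (f - g) h = tmap f h - tmap g h := by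
  refine hom_ext_ext fun x y => ?_
  rw [LinearMap.sub_apply, tmap_ext, tmap_ext, tmap_ext, LinearMap.sub_apply]
  unfold SPre.ext
  rw [map_sub (P.pull _), sub_mul]

/-- (Q2a) -/
theorem nr_le_add {Z : SmProjVar k} (W : SmProjVar k) (e : P.H Z →ₗ[Ω] P.H Z) :
    nr P (Z.prod W) ≤ rho P (tmap e (LinearMap.id : P.H W →ₗ[Ω] P.H W)) +
      rho P (tmap (LinearMap.id - e) (LinearMap.id : P.H W →ₗ[Ω] P.H W)) := by
  unfold nr rho
  refine le_trans (rdim_mono ?_) (rdim_sup_le _ _ _)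
  intro x hx
  rw [tmap_sub_left, tmap_id]
  have h : x = tmap e LinearMap.id x +
      ((LinearMap.id : P.H (Z.prod W) →ₗ[Ω] P.H (Z.prod W)) -
        tmap e (LinearMap.id : P.H W →ₗ[Ω] P.H W)) x := by
    rw [LinearMap.sub_apply, LinearMap.id_apply]
    abel
  rw [h]
  exact Submodule.add_mem_sup ⟨x, hx, rfl⟩ ⟨x, hx, rfl⟩

lemma id_sub_mem {Z : SmProjVar k} {e : P.H Z →ₗ[Ω] P.H Z} (he : e ∈ Mor P Z Z) :
    LinearMap.id - e ∈ Mor P Z Z :=
  Submodule.sub_mem _ (isMap_id Z) he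

/-- (Q2b) -/
theorem nr_le_rho_add [CharZero Ω] (Z Y : SmProjVar k) {e : P.H Z →ₗ[Ω] P.H Z}
    (he : e ∈ Mor P Z Z) (hee : e ∘ₗ e = e) :
    nr P (Z.prod (Y.prod Y)) ≤
      rho P (tmap e (LinearMap.id : P.H (Y.prod Y) →ₗ[Ω] P.H (Y.prod Y))) +
        (Module.finrank Ω (P.H Z) - Module.finrank Ω (LinearMap.range e)) *
          nr P (Y.prod Y) := by
  have h1 := nr_le_add (P := P) (Y.prod Y) e
  have h2 := rho_le Z Y (id_sub_mem he) (id_sub_comp_self hee)
  have h3 := finrank_range_id_sub hee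
  have h4 : Module.finrank Ω (P.H Z) - Module.finrank Ω (LinearMap.range e) =
      Module.finrank Ω (LinearMap.range (LinearMap.id - e)) := by omega
  rw [h4]
  omega

/-- (Q2c) -/
theorem tendsto_rho [CharZero Ω] {Z : SmProjVar k} {Y : ℕ → SmProjVar k}
    (hn : ∀ l, 1 ≤ nr P ((Y l).prod (Y l)))
    (hlim : Tendsto (fun l => (nr P (Z.prod ((Y l).prod (Y l))) : ℝ) /
      (nr P ((Y l).prod (Y l)) : ℝ)) atTop (𝓝 (Module.finrank Ω (P.H Z) : ℝ)))
    {e : P.H Z →ₗ[Ω] P.H Z} (he : e ∈ Mor P Z Z) (hee : e ∘ₗ e = e) :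
    Tendsto (fun l => (rho P (tmap e
      (LinearMap.id : P.H ((Y l).prod (Y l)) →ₗ[Ω] P.H ((Y l).prod (Y l)))) : ℝ) /
        (nr P ((Y l).prod (Y l)) : ℝ)) atTop
      (𝓝 (Module.finrank Ω (LinearMap.range e) : ℝ)) := by
  have hb : Module.finrank Ω (LinearMap.range e) ≤ Module.finrank Ω (P.H Z) :=
    LinearMap.finrank_range_le e
  have hlim' : Tendsto (fun l => (nr P (Z.prod ((Y l).prod (Y l))) : ℝ) /
      (nr P ((Y l).prod (Y l)) : ℝ) - ((Module.finrank Ω (P.H Z) : ℝ) -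
        (Module.finrank Ω (LinearMap.range e) : ℝ))) atTop
      (𝓝 (Module.finrank Ω (LinearMap.range e) : ℝ)) := by
    have := hlim.sub_const ((Module.finrank Ω (P.H Z) : ℝ) -
        (Module.finrank Ω (LinearMap.range e) : ℝ))
    rwa [sub_sub_cancel] at this
  refine tendsto_of_tendsto_of_tendsto_of_le_of_le hlim' tendsto_const_nhds (fun l => ?_)
    (fun l => ?_)
  · have h0 : (0 : ℝ) < (nr P ((Y l).prod (Y l)) : ℝ) := by exact_mod_cast hn l
    have h1 := nr_le_rho_add Z (Y l) he hee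
    have h2 : (nr P (Z.prod ((Y l).prod (Y l))) : ℝ) ≤
        (rho P (tmap e (LinearMap.id : P.H ((Y l).prod (Y l)) →ₗ[Ω] _)) : ℝ) +
          ((Module.finrank Ω (P.H Z) : ℝ) - (Module.finrank Ω (LinearMap.range e) : ℝ)) *
            (nr P ((Y l).prod (Y l)) : ℝ) := by
      rw [← Nat.cast_sub hb]
      exact_mod_cast h1
    change (nr P (Z.prod ((Y l).prod (Y l))) : ℝ) / (nr P ((Y l).prod (Y l)) : ℝ) -
      ((Module.finrank Ω (P.H Z) : ℝ) - (Module.finrank Ω (LinearMap.range e) : ℝ)) ≤ _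
    rw [sub_le_iff_le_add, div_add' _ _ _ h0.ne']
    exact div_le_div_of_nonneg_right h2 h0.le
  · have h0 : (0 : ℝ) < (nr P ((Y l).prod (Y l)) : ℝ) := by exact_mod_cast hn l
    have h1 := rho_le Z (Y l) he hee
    change (rho P (tmap e (LinearMap.id : P.H ((Y l).prod (Y l)) →ₗ[Ω] _)) : ℝ) /
      (nr P ((Y l).prod (Y l)) : ℝ) ≤ (Module.finrank Ω (LinearMap.range e) : ℝ)
    rw [div_le_iff₀ h0]
    exact_mod_cast h1

/-- (Q2c) for the adjoint -/
theorem tendsto_rho_adj [CharZero Ω] {Z : SmProjVar k} {Y : ℕ → SmProjVar k}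
    (hn : ∀ l, 1 ≤ nr P ((Y l).prod (Y l)))
    (hlim : Tendsto (fun l => (nr P (Z.prod ((Y l).prod (Y l))) : ℝ) /
      (nr P ((Y l).prod (Y l)) : ℝ)) atTop (𝓝 (Module.finrank Ω (P.H Z) : ℝ)))
    {e : P.H Z →ₗ[Ω] P.H Z} (he : e ∈ Mor P Z Z) (hee : e ∘ₗ e = e) :
    Tendsto (fun l => (rho P (tmap (adj e)
      (LinearMap.id : P.H ((Y l).prod (Y l)) →ₗ[Ω] P.H ((Y l).prod (Y l)))) : ℝ) /
        (nr P ((Y l).prod (Y l)) : ℝ)) atTop
      (𝓝 (Module.finrank Ω (LinearMap.range e) : ℝ)) := by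
  have h := tendsto_rho hn hlim (adj_mem_Mor he) (by rw [← adj_comp, hee])
  rwa [finrank_range_adj] at h

/-- the bound for the adjoint -/
theorem rho_adj_le [CharZero Ω] (Z Y : SmProjVar k) {e : P.H Z →ₗ[Ω] P.H Z}
    (he : e ∈ Mor P Z Z) (hee : e ∘ₗ e = e) :
    rho P (tmap (adj e) (LinearMap.id : P.H (Y.prod Y) →ₗ[Ω] P.H (Y.prod Y))) ≤
      Module.finrank Ω (LinearMap.range e) * nr P (Y.prod Y) := by
  have h := rho_le Z Y (adj_mem_Mor he) (by rw [← adj_comp, hee])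
  rwa [finrank_range_adj] at h

end Pool.Agent.Helper46.QL
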