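import Mathlib
import Pool.Agent.Helper46.QL.Q2

/-!
# The dimension of the classes generated by finitely many idempotents
-/

universe u v w t

open CategoryTheory TensorProduct Filter Topology

namespace Pool.Agent.Helper46.QL

open Pool.Agent.Helper10 Pool.Agent.Helper11.Iso SmProjVar SPre Pool.Agent.Helper34.ZP

variable {k : Type u} [Field k] {K : Type t} [Field K] {Ω : Type v} [Field Ω] [Algebra K Ω]
  {P : SPre.{u, v, w, t} k K Ω}

/-- if `D` holds for `U` then the homological and the numerical ranks agree -/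
theorem nr_eq_hr_of_radS {U : SmProjVar k} (h : radS P U = ⊥) : nr P U = hr P U := by
  unfold nr hr rdim
  rw [h, inf_bot_eq, finrank_bot, Nat.sub_zero]

theorem radS_eq_bot_of_Nul {X Y : SmProjVar k} (h : Nul P X Y = ⊥) :
    radS P (X.prod Y) = ⊥ := by
  rw [← map_opL_radS] at h
  refine (Submodule.eq_bot_iff _).mpr fun x hx => ?_
  have h1 : opL P X Y x ∈ (radS P (X.prod Y)).map (opL P X Y) := ⟨x, hx, rfl⟩
  rw [h, Submodule.mem_bot] at h1
  exact (opL_bijective X Y).1 (h1.trans (map_zero _).symm)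

theorem Nul_eq_bot_of_radS {X Y : SmProjVar k} (h : radS P (X.prod Y) = ⊥) :
    Nul P X Y = ⊥ := by
  rw [← map_opL_radS, h, Submodule.map_bot]

/-- (Q3) the upper bound -/
theorem sum_rho_le [CharZero Ω] (Z Y : SmProjVar k) (gs : List (P.H Z →ₗ[Ω] P.H Z))
    (hgs : ∀ g ∈ gs, g ∈ Mor P Z Z ∧ g ∘ₗ g = g) :
    nr P (Y.prod Y) + (gs.map fun g =>
      rho P (tmap (adj g) (LinearMap.id : P.H (Y.prod Y) →ₗ[Ω] P.H (Y.prod Y)))).sum ≤
    (1 + (gs.map fun g => Module.finrank Ω (LinearMap.range g)).sum) * nr P (Y.prod Y) := by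
  induction gs with
  | nil => simp
  | cons g gs ih =>
    have h1 := ih fun a ha => hgs a (List.mem_cons_of_mem _ ha)
    have h2 := hgs g List.mem_cons_self
    have h3 := rho_adj_le Z Y h2.1 h2.2
    rw [List.map_cons, List.map_cons, List.sum_cons, List.sum_cons]
    nlinarith

/-- (Q3) the limit -/
theorem tendsto_sum_rho [CharZero Ω] {Z : SmProjVar k} {Y : ℕ → SmProjVar k}
    (hn : ∀ l, 1 ≤ nr P ((Y l).prod (Y l)))
    (hlim : Tendsto (fun l => (nr P (Z.prod ((Y l).prod (Y l))) : ℝ) /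
      (nr P ((Y l).prod (Y l)) : ℝ)) atTop (𝓝 (Module.finrank Ω (P.H Z) : ℝ)))
    (gs : List (P.H Z →ₗ[Ω] P.H Z)) (hgs : ∀ g ∈ gs, g ∈ Mor P Z Z ∧ g ∘ₗ g = g) :
    Tendsto (fun l => ((nr P ((Y l).prod (Y l)) + (gs.map fun g => rho P (tmap (adj g)
      (LinearMap.id : P.H ((Y l).prod (Y l)) →ₗ[Ω] P.H ((Y l).prod (Y l))))).sum : ℕ) : ℝ) /
        (nr P ((Y l).prod (Y l)) : ℝ)) atTop
      (𝓝 ((1 + (gs.map fun g => Module.finrank Ω (LinearMap.range g)).sum : ℕ) : ℝ)) := by
  induction gs with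
  | nil =>
    have h0 : ∀ l, (nr P ((Y l).prod (Y l)) : ℝ) ≠ 0 := fun l => by
      have := hn l
      have h' : (0 : ℝ) < (nr P ((Y l).prod (Y l)) : ℝ) := by exact_mod_cast this
      exact h'.ne'
    refine (tendsto_congr fun l => ?_).mpr tendsto_const_nhds
    simp only [List.map_nil, List.sum_nil, Nat.add_zero, Nat.cast_one]
    exact div_self (h0 l)
  | cons g gs ih =>
    have h1 := ih fun a ha => hgs a (List.mem_cons_of_mem _ ha)
    have h2 := hgs g List.mem_cons_self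
    have h3 := tendsto_rho_adj hn hlim h2.1 h2.2
    have h4 := h1.add h3
    have h5 : ((1 + ((g :: gs).map fun g => Module.finrank Ω (LinearMap.range g)).sum : ℕ) : ℝ) =
        ((1 + (gs.map fun g => Module.finrank Ω (LinearMap.range g)).sum : ℕ) : ℝ) +
          (Module.finrank Ω (LinearMap.range g) : ℝ) := by
      rw [List.map_cons, List.sum_cons]
      push_cast
      ring
    rw [h5]
    refine (tendsto_congr fun l => ?_).mp h4
    rw [List.map_cons, List.sum_cons, ← add_div]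
    push_cast
    ring_nf

/-- (Q3) for the formula of (Q1): `D` on `Z × Y` and `Y` is replaced by `D` on all the varieties
which occur -/
theorem gen_le_of_formula [CharZero Ω] (Z Y : SmProjVar k) (gs : List (P.H Z →ₗ[Ω] P.H Z))
    (hgs : ∀ g ∈ gs, g ∈ Mor P Z Z ∧ g ∘ₗ g = g) (hY : radS P (Y.prod Y) = ⊥) {x : ℕ}
    (hx : x = hr P (Y.prod Y) + (gs.map fun g =>
      rho P (tmap (adj g) (LinearMap.id : P.H (Y.prod Y) →ₗ[Ω] P.H (Y.prod Y)))).sum) :
    x ≤ (1 + (gs.map fun g => Module.finrank Ω (LinearMap.range g)).sum) * nr P (Y.prod Y) := by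
  rw [hx, ← nr_eq_hr_of_radS hY]
  exact sum_rho_le Z Y gs hgs

theorem tendsto_of_formula [CharZero Ω] {Z : SmProjVar k} {Y : ℕ → SmProjVar k}
    (hn : ∀ l, 1 ≤ nr P ((Y l).prod (Y l)))
    (hlim : Tendsto (fun l => (nr P (Z.prod ((Y l).prod (Y l))) : ℝ) /
      (nr P ((Y l).prod (Y l)) : ℝ)) atTop (𝓝 (Module.finrank Ω (P.H Z) : ℝ)))
    (gs : List (P.H Z →ₗ[Ω] P.H Z)) (hgs : ∀ g ∈ gs, g ∈ Mor P Z Z ∧ g ∘ₗ g = g)
    (hY : ∀ l, radS P ((Y l).prod (Y l)) = ⊥) {x : ℕ → ℕ}
    (hx : ∀ l, x l = hr P ((Y l).prod (Y l)) + (gs.map fun g => rho P (tmap (adj g)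
      (LinearMap.id : P.H ((Y l).prod (Y l)) →ₗ[Ω] P.H ((Y l).prod (Y l))))).sum) :
    Tendsto (fun l => (x l : ℝ) / (nr P ((Y l).prod (Y l)) : ℝ)) atTop
      (𝓝 ((1 + (gs.map fun g => Module.finrank Ω (LinearMap.range g)).sum : ℕ) : ℝ)) := by
  refine (tendsto_congr fun l => ?_).mp (tendsto_sum_rho hn hlim gs hgs)
  rw [hx l, ← nr_eq_hr_of_radS (hY l)]

/-- the sum of the ranks is positive unless there are no idempotents -/
theorem sum_rank_pos {Z : SmProjVar k} {gs : List (P.H Z →ₗ[Ω] P.H Z)}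
    (hgs : ∀ g ∈ gs, g ≠ 0) (hne : gs ≠ []) :
    1 ≤ (gs.map fun g => Module.finrank Ω (LinearMap.range g)).sum := by
  cases gs with
  | nil => exact absurd rfl hne
  | cons g gs =>
    have h1 : 0 < Module.finrank Ω (LinearMap.range g) := by
      rw [Module.finrank_pos_iff_exists_ne_zero]
      have h2 := hgs g List.mem_cons_self
      by_contra hcon
      push Not at hcon
      apply h2
      refine LinearMap.ext fun x => ?_
      have := congrArg Subtype.val (hcon ⟨g x, ⟨x, rfl⟩⟩)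
      exact this
    rw [List.map_cons, List.sum_cons]
    omega

end Pool.Agent.Helper46.QL
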