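import Mathlib
import Pool.Agent.Helper46.QL.Q3
import Pool.Agent.Helper10.ZP.Q1

/-!
# The size of the system generated by the classes on one variety
-/

universe u v w t

open CategoryTheory TensorProduct Filter Topology

namespace Pool.Agent.Helper46.QL

open Pool.Agent.Helper10 Pool.Agent.Helper11.Iso SmProjVar SPre Pool.Agent.Helper34.ZP

variable {k : Type u} [Field k] {K : Type t} [Field K] {Ω : Type v} [Field Ω] [Algebra K Ω]
  {P : SPre.{u, v, w, t} k K Ω}

/-- the bridge between (Q1) and the numerical ranks -/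
theorem finrank_map_precomp {Z Y : SmProjVar k} (h : Nul P Z Y = ⊥) {g : P.H Z →ₗ[Ω] P.H Z}
    (hg : g ∈ Mor P Z Z) : Module.finrank Ω ((Mor P Z Y).map (precomp g)) =
      rho P (tmap (adj g) (LinearMap.id : P.H Y →ₗ[Ω] P.H Y)) := by
  have h1 : (Mor P Z Y).map (precomp g) =
      ((P.alg (Z.prod Y)).map (tmap (adj g) LinearMap.id)).map (opL P Z Y) := by
    rw [← map_opL_alg, ← Submodule.map_comp, ← Submodule.map_comp]
    congr 1
    refine LinearMap.ext fun c => ?_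
    change op c ∘ₗ g = op (tmap (adj g) LinearMap.id c)
    rw [op_tmap, LinearMap.id_comp, adj_adj hg]
  rw [← rdim_radS_opL, ← h1, h]
  unfold rdim
  rw [inf_bot_eq, finrank_bot, Nat.sub_zero]

/-- upper bound, given bounds for the ranks of idempotents -/
theorem sum_rho_le_of {Z Y : SmProjVar k} {U : ℕ}
    (hU : ∀ e ∈ Mor P Z Z, e ∘ₗ e = e →
      rho P (tmap e (LinearMap.id : P.H Y →ₗ[Ω] P.H Y)) ≤
        Module.finrank Ω (LinearMap.range e) * U) {g : P.H Z →ₗ[Ω] P.H Z}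
    (hg : g ∈ Mor P Z Z) (hgg : g ∘ₗ g = g) :
    rho P (tmap (adj g) (LinearMap.id : P.H Y →ₗ[Ω] P.H Y)) ≤
      Module.finrank Ω (LinearMap.range g) * U := by
  have h := hU (adj g) (adj_mem_Mor hg) (by rw [← adj_comp, hgg])
  rwa [finrank_range_adj] at h

/-- the limit of the ranks of idempotents -/
theorem tendsto_rho_of {Z : SmProjVar k} {Y : ℕ → SmProjVar k} {U : ℕ → ℕ}
    (hN : ∀ m, 1 ≤ nr P (Y m))
    (hU : ∀ m, 1 ≤ m → ∀ e ∈ Mor P Z Z, e ∘ₗ e = e →
      rho P (tmap e (LinearMap.id : P.H (Y m) →ₗ[Ω] P.H (Y m))) ≤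
        Module.finrank Ω (LinearMap.range e) * U m)
    (hU1 : Tendsto (fun m => (U m : ℝ) / (nr P (Y m) : ℝ)) atTop (𝓝 1))
    (hlim : Tendsto (fun m => (nr P (Z.prod (Y m)) : ℝ) / (nr P (Y m) : ℝ)) atTop
      (𝓝 (Module.finrank Ω (P.H Z) : ℝ)))
    {e : P.H Z →ₗ[Ω] P.H Z} (he : e ∈ Mor P Z Z) (hee : e ∘ₗ e = e) :
    Tendsto (fun m => (rho P (tmap e (LinearMap.id : P.H (Y m) →ₗ[Ω] P.H (Y m))) : ℝ) /
      (nr P (Y m) : ℝ)) atTop (𝓝 (Module.finrank Ω (LinearMap.range e) : ℝ)) := by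
  have h0 : ∀ m, (0 : ℝ) < (nr P (Y m) : ℝ) := fun m => by exact_mod_cast hN m
  have hr := finrank_range_id_sub hee
  have hup : Tendsto (fun m => (Module.finrank Ω (LinearMap.range e) : ℝ) *
      ((U m : ℝ) / (nr P (Y m) : ℝ))) atTop
        (𝓝 (Module.finrank Ω (LinearMap.range e) : ℝ)) := by
    have := hU1.const_mul (Module.finrank Ω (LinearMap.range e) : ℝ)
    rwa [mul_one] at this
  have hlow : Tendsto (fun m => (nr P (Z.prod (Y m)) : ℝ) / (nr P (Y m) : ℝ) -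
      (Module.finrank Ω (LinearMap.range (LinearMap.id - e)) : ℝ) *
        ((U m : ℝ) / (nr P (Y m) : ℝ))) atTop
        (𝓝 (Module.finrank Ω (LinearMap.range e) : ℝ)) := by
    have h1 := hlim.sub
      (hU1.const_mul (Module.finrank Ω (LinearMap.range (LinearMap.id - e)) : ℝ))
    have h2 : (Module.finrank Ω (P.H Z) : ℝ) -
        (Module.finrank Ω (LinearMap.range (LinearMap.id - e)) : ℝ) * 1 =
          (Module.finrank Ω (LinearMap.range e) : ℝ) := by
      rw [← hr]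
      push_cast
      ring
    rwa [h2] at h1
  refine tendsto_of_tendsto_of_tendsto_of_le_of_le' hlow hup ?_ ?_
  · filter_upwards [eventually_ge_atTop 1] with m hm
    have h1 := nr_le_add (P := P) (Y m) e
    have h2 := hU m hm _ (id_sub_mem he) (id_sub_comp_self hee)
    have h3 : (nr P (Z.prod (Y m)) : ℝ) ≤
        (rho P (tmap e (LinearMap.id : P.H (Y m) →ₗ[Ω] P.H (Y m))) : ℝ) +
          (Module.finrank Ω (LinearMap.range (LinearMap.id - e)) : ℝ) * (U m : ℝ) := by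
      exact_mod_cast h1.trans (Nat.add_le_add_left h2 _)
    rw [← mul_div_assoc, div_sub_div_same]
    exact div_le_div_of_nonneg_right (by linarith) (h0 m).le
  · filter_upwards [eventually_ge_atTop 1] with m hm
    have h2 := hU m hm _ he hee
    rw [← mul_div_assoc]
    exact div_le_div_of_nonneg_right (by exact_mod_cast h2) (h0 m).le

/-- (Q2), (Q3): the dimension of the part which is generated by a stable subspace `M` of `H(Z)`,
from the formula of (Q1) -/
theorem gen_data {Z : SmProjVar k} {Y : ℕ → SmProjVar k} {U : ℕ → ℕ}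
    (hN : ∀ m, 1 ≤ nr P (Y m)) (hNU : ∀ m, 1 ≤ m → nr P (Y m) ≤ U m)
    (hU : ∀ m, 1 ≤ m → ∀ e ∈ Mor P Z Z, e ∘ₗ e = e →
      rho P (tmap e (LinearMap.id : P.H (Y m) →ₗ[Ω] P.H (Y m))) ≤
        Module.finrank Ω (LinearMap.range e) * U m)
    (hU1 : Tendsto (fun m => (U m : ℝ) / (nr P (Y m) : ℝ)) atTop (𝓝 1))
    (hlim : Tendsto (fun m => (nr P (Z.prod (Y m)) : ℝ) / (nr P (Y m) : ℝ)) atTop
      (𝓝 (Module.finrank Ω (P.H Z) : ℝ)))
    (hD : ∀ m, radS P (Y m) = ⊥) (hDZ : ∀ m, Nul P Z (Y m) = ⊥)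
    {M : Submodule Ω (P.H Z)} {n : ℕ} {g : Fin n → P.H Z →ₗ[Ω] P.H Z}
    (hg : ∀ i, g i ∈ Mor P Z Z ∧ g i ∘ₗ g i = g i)
    (hgen : ∀ m, Module.finrank Ω (gen P M (Y m)) = hr P (Y m) +
      ∑ i, Module.finrank Ω ((Mor P Z (Y m)).map (precomp (g i)))) :
    (∀ m, 1 ≤ m → Module.finrank Ω (gen P M (Y m)) ≤
      (1 + ∑ i, Module.finrank Ω (LinearMap.range (g i))) * U m) ∧
    Tendsto (fun m => (Module.finrank Ω (gen P M (Y m)) : ℝ) / (nr P (Y m) : ℝ)) atTop
      (𝓝 ((1 + ∑ i, Module.finrank Ω (LinearMap.range (g i)) : ℕ) : ℝ)) := by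
  have h0 : ∀ m, (0 : ℝ) < (nr P (Y m) : ℝ) := fun m => by exact_mod_cast hN m
  have hgen' : ∀ m, Module.finrank Ω (gen P M (Y m)) = nr P (Y m) +
      ∑ i, rho P (tmap (adj (g i)) (LinearMap.id : P.H (Y m) →ₗ[Ω] P.H (Y m))) := fun m => by
    rw [hgen, nr_eq_hr_of_radS (hD m)]
    congr 1
    exact Finset.sum_congr rfl fun i _ => finrank_map_precomp (hDZ m) (hg i).1
  constructor
  · intro m hm
    rw [hgen', Nat.add_mul, Nat.one_mul, Finset.sum_mul]
    exact Nat.add_le_add (hNU m hm)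
      (Finset.sum_le_sum fun i _ => sum_rho_le_of (hU m hm) (hg i).1 (hg i).2)
  · have h1 : Tendsto (fun m => ((nr P (Y m) : ℝ) / (nr P (Y m) : ℝ)) + ∑ i,
        (rho P (tmap (adj (g i)) (LinearMap.id : P.H (Y m) →ₗ[Ω] P.H (Y m))) : ℝ) /
          (nr P (Y m) : ℝ)) atTop
        (𝓝 (1 + ∑ i, (Module.finrank Ω (LinearMap.range (g i)) : ℝ))) := by
      refine Tendsto.add ?_ (tendsto_finsetSum _ fun i _ => ?_)
      · exact (tendsto_congr fun m => div_self (h0 m).ne').mpr tendsto_const_nhds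
      · have h := tendsto_rho_of hN hU hU1 hlim (adj_mem_Mor (hg i).1)
          (by rw [← adj_comp, (hg i).2])
        rwa [finrank_range_adj] at h
    have h2 : ((1 + ∑ i, Module.finrank Ω (LinearMap.range (g i)) : ℕ) : ℝ) =
        1 + ∑ i, (Module.finrank Ω (LinearMap.range (g i)) : ℝ) := by
      push_cast
      ring
    rw [h2]
    refine (tendsto_congr fun m => ?_).mp h1
    rw [hgen', ← Finset.sum_div, ← add_div]
    push_cast
    ring_nf

/-- the sum of the ranks is zero only if there are no idempotents -/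
theorem sum_rank_eq_zero_iff {Z : SmProjVar k} {n : ℕ} {g : Fin n → P.H Z →ₗ[Ω] P.H Z}
    (hg : ∀ i, g i ≠ 0) : ∑ i, Module.finrank Ω (LinearMap.range (g i)) = 0 ↔ n = 0 := by
  constructor
  · intro h
    by_contra hn
    rw [Finset.sum_eq_zero_iff] at h
    have h1 := h ⟨0, Nat.pos_of_ne_zero hn⟩ (Finset.mem_univ _)
    rw [Submodule.finrank_eq_zero, LinearMap.range_eq_bot] at h1
    exact hg _ h1
  · rintro rfl
    exact Finset.sum_empty

end Pool.Agent.Helper46.QL
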